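import Pool.Agent.W780.PG.Stm

set_option autoImplicit false

namespace Pool.Agent.W174.PG

open Pool.Agent.W780.PG Filter Topology Set
open scoped ComplexConjugate

theorem lft_expand (a b z : ℂ) :
    lft a b z = (b.re - a.re) * (z.im - a.im) - (b.im - a.im) * (z.re - a.re) := by
  unfold lft
  simp [Complex.mul_im]
  ring

theorem lft_left (a b : ℂ) : lft a b a = 0 := by rw [lft_expand]; ring
theorem lft_right (a b : ℂ) : lft a b b = 0 := by rw [lft_expand]; ring

theorem lft_comb (a b z w : ℂ) {s t : ℝ} (h : s + t = 1) :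
    lft a b (s • z + t • w) = s * lft a b z + t * lft a b w := by
  have hs : s = 1 - t := by linarith
  subst hs
  simp only [lft_expand, Complex.add_re, Complex.add_im, Complex.smul_re, Complex.smul_im,
    smul_eq_mul]
  ring

theorem lft_line (a b u v : ℂ) (s : ℝ) :
    lft a b (u + s • (v - u)) = (1 - s) * lft a b u + s * lft a b v := by
  rw [← lft_comb a b u v (by ring : (1 - s) + s = 1)]
  congr 1
  rw [sub_smul, one_smul, smul_sub]
  ring

theorem lft_cont (a b : ℂ) : Continuous (lft a b) := by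
  unfold lft
  fun_prop

theorem online {a b z : ℂ} (hab : a ≠ b) (h : lft a b z = 0) : ∃ s : ℝ, z = a + s • (b - a) := by
  have hu : b - a ≠ 0 := sub_ne_zero.2 hab.symm
  have hn : Complex.normSq (b - a) ≠ 0 := by simpa using hu
  refine ⟨(conj (b - a) * (z - a)).re / Complex.normSq (b - a), ?_⟩
  have h1 : conj (b - a) * (z - a) = ((conj (b - a) * (z - a)).re : ℂ) := by
    apply Complex.ext
    · simp
    · rw [Complex.ofReal_im]; exact h
  have h2 : (b - a) * (conj (b - a) * (z - a)) = Complex.normSq (b - a) * (z - a) := by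
    rw [← mul_assoc, Complex.mul_conj]
  rw [h1] at h2
  have hn' : (Complex.normSq (b - a) : ℂ) ≠ 0 := by exact_mod_cast hn
  rw [Complex.real_smul, Complex.ofReal_div]
  field_simp
  linear_combination -h2

section idx
variable {n : ℕ} (i : Fin (n + 3))

theorem one_ne : (1 : Fin (n + 3)) ≠ 0 := by simp
theorem two_ne : (1 + 1 : Fin (n + 3)) ≠ 0 := by
  intro h
  have h2 := congrArg Fin.val h
  rw [Fin.val_add] at h2
  have h3 : ((1 : Fin (n + 3)) : ℕ) = 1 := rfl
  rw [h3, Nat.mod_eq_of_lt (by omega)] at h2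
  exact absurd h2 (by simp)
theorem i1 : i + 1 ≠ i := by
  intro h; exact one_ne (add_eq_left.1 h)
theorem i2 : i + 1 + 1 ≠ i := by
  intro h; rw [add_assoc] at h; exact two_ne (add_eq_left.1 h)
theorem im : i - 1 ≠ i := by
  intro h; exact one_ne (sub_eq_self.1 h)
theorem im2 : i - 1 ≠ i + 1 := by
  intro h
  have := congrArg (· + 1) h
  simp only [sub_add_cancel] at this
  exact i2 i this.symm
end idx

section
variable {n : ℕ} {p : Fin (n + 3) → ℂ} (hp : IsConvexPolygon p)
include hp

theorem l_nonneg (i j : Fin (n + 3)) : 0 ≤ lft (p i) (p (i + 1)) (p j) := by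
  by_cases h1 : j = i
  · rw [h1, lft_left]
  · by_cases h2 : j = i + 1
    · rw [h2, lft_right]
    · exact (hp.pos i j h1 h2).le

theorem inj : Function.Injective p := by
  intro i j hij
  by_contra hne
  by_cases h : j = i + 1
  · have h1 := hp.pos j i hne (by rw [h]; exact (i2 i).symm)
    rw [hij, lft_left] at h1
    exact lt_irrefl _ h1
  · have h1 := hp.pos i j (Ne.symm hne) h
    rw [← hij, lft_left] at h1
    exact lt_irrefl _ h1

theorem side_facts (i : Fin (n + 3)) {z : ℂ} (hz : z ∈ side p i) :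
    z ∈ creg p ∧ lft (p i) (p (i + 1)) z = 0 ∧ ∀ k, k ≠ i → 0 < lft (p k) (p (k + 1)) z := by
  obtain ⟨a, b, ha, hb, hab, rfl⟩ := hz
  have h0 : lft (p i) (p (i + 1)) (a • p i + b • p (i + 1)) = 0 := by
    rw [lft_comb _ _ _ _ hab, lft_left, lft_right]; ring
  have hk : ∀ k, k ≠ i → 0 < lft (p k) (p (k + 1)) (a • p i + b • p (i + 1)) := by
    intro k hki
    rw [lft_comb _ _ _ _ hab]
    have n1 := l_nonneg hp k i
    have n2 := l_nonneg hp k (i + 1)
    by_cases h : i = k + 1
    · have : 0 < lft (p k) (p (k + 1)) (p (i + 1)) := by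
        apply hp.pos
        · rw [h]; exact i2 k
        · rw [h]; exact i1 _
      have := mul_pos hb this
      have := mul_nonneg ha.le n1
      linarith
    · have := mul_pos ha (hp.pos k i (Ne.symm hki) h)
      have := mul_nonneg hb.le n2
      linarith
  refine ⟨fun k => ?_, h0, hk⟩
  by_cases h : k = i
  · rw [h, h0]
  · exact (hk k h).le

theorem side_of (i : Fin (n + 3)) {z : ℂ} (hz : z ∈ creg p) (h0 : lft (p i) (p (i + 1)) z = 0)
    (hne : ∀ k, z ≠ p k) : z ∈ side p i := by
  obtain ⟨s, rfl⟩ := online (fun h => i1 i (inj hp h).symm) h0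
  have h1 := hz (i - 1)
  have h2 := hz (i + 1)
  rw [sub_add_cancel, lft_line, lft_right] at h1
  rw [lft_line, lft_left] at h2
  have p1 : 0 < lft (p (i - 1)) (p i) (p (i + 1)) := by
    have := hp.pos (i - 1) (i + 1) (im2 i).symm (by rw [sub_add_cancel]; exact i1 i)
    rwa [sub_add_cancel] at this
  have p2 : 0 < lft (p (i + 1)) (p (i + 1 + 1)) (p i) := hp.pos (i + 1) i (i1 i).symm (i2 i).symm
  have s0 : 0 ≤ s := by
    by_contra h
    have := mul_neg_of_neg_of_pos (not_le.1 h) p1
    linarith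
  have s1 : s ≤ 1 := by
    by_contra h
    have := mul_neg_of_neg_of_pos (sub_neg.2 (not_le.1 h)) p2
    linarith
  have s0' : s ≠ 0 := by
    rintro rfl
    exact hne i (by simp)
  have s1' : s ≠ 1 := by
    rintro rfl
    exact hne (i + 1) (by simp)
  refine ⟨1 - s, s, sub_pos.2 (lt_of_le_of_ne s1 s1'), lt_of_le_of_ne s0 (Ne.symm s0'), by ring, ?_⟩
  rw [sub_smul, one_smul, smul_sub]
  ring

theorem reg_nonempty : (reg p).Nonempty := by
  have h1 : (1 / 2 : ℝ) • p 0 + (1 / 2 : ℝ) • p (0 + 1) ∈ side p 0 :=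
    ⟨1 / 2, 1 / 2, by norm_num, by norm_num, by norm_num, rfl⟩
  have h2 : (1 / 2 : ℝ) • p 1 + (1 / 2 : ℝ) • p (1 + 1) ∈ side p 1 :=
    ⟨1 / 2, 1 / 2, by norm_num, by norm_num, by norm_num, rfl⟩
  obtain ⟨a1, a2, a3⟩ := side_facts hp 0 h1
  obtain ⟨b1, b2, b3⟩ := side_facts hp 1 h2
  refine ⟨(1 / 2 : ℝ) • ((1 / 2 : ℝ) • p 0 + (1 / 2 : ℝ) • p (0 + 1)) +
    (1 / 2 : ℝ) • ((1 / 2 : ℝ) • p 1 + (1 / 2 : ℝ) • p (1 + 1)), fun k => ?_⟩
  rw [lft_comb _ _ _ _ (by norm_num)]
  have c1 := a1 k
  have c2 := b1 k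
  by_cases h : k = 0
  · have := b3 k (by rw [h]; exact one_ne.symm)
    linarith
  · have := a3 k h
    linarith

end

theorem basic : S_Basic := by
  intro n p hp
  have hopen : IsOpen (reg p) := by
    have : reg p = ⋂ i, {z | 0 < lft (p i) (p (i + 1)) z} := by ext; simp [reg]
    rw [this]
    exact isOpen_iInter_of_finite fun i => isOpen_lt continuous_const (lft_cont _ _)
  have hclosed : IsClosed (creg p) := by
    have : creg p = ⋂ i, {z | 0 ≤ lft (p i) (p (i + 1)) z} := by ext; simp [creg]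
    rw [this]
    exact isClosed_iInter fun i => isClosed_le continuous_const (lft_cont _ _)
  have hmix : ∀ z ∈ creg p, ∀ c ∈ reg p, ∀ s t : ℝ, 0 ≤ s → 0 < t → s + t = 1 →
      s • z + t • c ∈ reg p := by
    intro z hz c hc s t hs ht hst i
    rw [lft_comb _ _ _ _ hst]
    have := mul_nonneg hs (hz i)
    have := mul_pos ht (hc i)
    linarith
  have hsub : reg p ⊆ creg p := fun z hz i => (hz i).le
  have hconv : Convex ℝ (reg p) := by
    intro z hz w hw s t hs ht hst
    rcases ht.eq_or_lt with h | h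
    · subst h
      have : s = 1 := by linarith
      subst this
      simpa using hz
    · exact hmix z (hsub hz) w hw s t hs h hst
  have hconvc : Convex ℝ (creg p) := by
    intro z hz w hw s t hs ht hst i
    rw [lft_comb _ _ _ _ hst]
    exact add_nonneg (mul_nonneg hs (hz i)) (mul_nonneg ht (hw i))
  have hne := reg_nonempty hp
  have hcl : closure (reg p) = creg p := by
    apply Subset.antisymm (closure_minimal hsub hclosed)
    intro z hz
    obtain ⟨c, hc⟩ := hne
    have hT : Tendsto (fun k : ℕ => (1 - 1 / ((k : ℝ) + 1)) • z + (1 / ((k : ℝ) + 1)) • c) atTop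
        (𝓝 ((1 - 0 : ℝ) • z + (0 : ℝ) • c)) := by
      have h0 : Tendsto (fun k : ℕ => 1 / ((k : ℝ) + 1)) atTop (𝓝 0) :=
        tendsto_one_div_add_atTop_nhds_zero_nat
      exact ((tendsto_const_nhds.sub h0).smul_const z).add (h0.smul_const c)
    rw [sub_zero, one_smul, zero_smul, add_zero] at hT
    refine mem_closure_of_tendsto hT (Eventually.of_forall fun k => ?_)
    have hk : 0 < 1 / ((k : ℝ) + 1) := by positivity
    have hk1 : 1 / ((k : ℝ) + 1) ≤ 1 := by
      rw [div_le_one (by positivity)]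
      have : (0:ℝ) ≤ k := Nat.cast_nonneg k
      linarith
    exact hmix z hz c hc _ _ (by linarith) hk (by ring)
  have hfr : frontier (reg p) = {z | z ∈ creg p ∧ z ∉ reg p} := by
    rw [frontier, hcl, hopen.interior_eq]
    rfl
  have hpc : ∀ i, p i ∈ creg p := fun i k => l_nonneg hp k i
  refine ⟨inj hp, hopen, hconv, hclosed, hconvc, hne, hcl, hpc, ?_, hfr, ?_, ?_,
    fun i z hz => side_facts hp i hz, ?_⟩
  · intro i z hz
    rw [hfr]
    obtain ⟨h1, h2, -⟩ := side_facts hp i hz
    refine ⟨h1, fun h => ?_⟩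
    have := h i
    rw [h2] at this
    exact lt_irrefl _ this
  · intro z hz i h0 hk
    have h1 := side_of hp i hz h0 hk
    exact ⟨h1, (side_facts hp i h1).2.2⟩
  · intro i k hk
    obtain ⟨h1, h2, h3⟩ := side_facts hp i hk
    have e1 : k = i := by
      by_contra h
      have := h3 k h
      rw [lft_left] at this
      exact lt_irrefl _ this
    have e2 : k - 1 = i := by
      by_contra h
      have := h3 (k - 1) h
      rw [sub_add_cancel, lft_right] at this
      exact lt_irrefl _ this
    exact im k (e2.trans e1.symm)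
  · intro i a ha b hb hab hseg
    obtain ⟨s, t, hs, ht, hst, hz⟩ := hseg
    have key : ∀ w ∈ creg p, lft (p i) (p (i + 1)) w = 0 → lft (p (i - 1)) (p i) w = 0 → w = p i := by
      intro w _ h1 h2
      obtain ⟨r, rfl⟩ := online (fun h => i1 i (inj hp h).symm) h1
      rw [lft_line, lft_right] at h2
      have p1 : 0 < lft (p (i - 1)) (p i) (p (i + 1)) := by
        have := hp.pos (i - 1) (i + 1) (im2 i).symm (by rw [sub_add_cancel]; exact i1 i)
        rwa [sub_add_cancel] at this
      have hr : r = 0 := by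
        rw [mul_zero, zero_add] at h2
        exact (mul_eq_zero.1 h2).resolve_right p1.ne'
      rw [hr]; simp
    have e1 : s * lft (p i) (p (i + 1)) a + t * lft (p i) (p (i + 1)) b = 0 := by
      rw [← lft_comb _ _ _ _ hst, hz, lft_left]
    have e2 : s * lft (p (i - 1)) (p i) a + t * lft (p (i - 1)) (p i) b = 0 := by
      rw [← lft_comb _ _ _ _ hst, hz, lft_right]
    have a1 := ha i
    have b1 := hb i
    have a2 := ha (i - 1)
    have b2 := hb (i - 1)
    rw [sub_add_cancel] at a2 b2
    have m1 := mul_nonneg hs.le a1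
    have m2 := mul_nonneg ht.le b1
    have m3 := mul_nonneg hs.le a2
    have m4 := mul_nonneg ht.le b2
    have z1 : lft (p i) (p (i + 1)) a = 0 :=
      (mul_eq_zero.1 (by linarith : s * lft (p i) (p (i + 1)) a = 0)).resolve_left hs.ne'
    have z2 : lft (p i) (p (i + 1)) b = 0 :=
      (mul_eq_zero.1 (by linarith : t * lft (p i) (p (i + 1)) b = 0)).resolve_left ht.ne'
    have z3 : lft (p (i - 1)) (p i) a = 0 :=
      (mul_eq_zero.1 (by linarith : s * lft (p (i - 1)) (p i) a = 0)).resolve_left hs.ne'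
    have z4 : lft (p (i - 1)) (p i) b = 0 :=
      (mul_eq_zero.1 (by linarith : t * lft (p (i - 1)) (p i) b = 0)).resolve_left ht.ne'
    exact hab ((key a ha z1 z3).trans (key b hb z2 z4).symm)

end Pool.Agent.W174.PG
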